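import Pool.Agent.helper1.UN.SpecU
import Pool.Agent.helper1.UN.Spec3

/-! Row VHD of project UN, block H (MP_cf4097_nt). -/

set_option autoImplicit false

open NumberField Complex MeasureTheory NumberField.Units NumberField.Units.dirichletUnitTheorem

open scoped Classical

namespace Pool.Agent.UN

theorem VHD_int (hVLV : VLV_stmt) (K : Type) [Field K] [NumberField K] (F : Set (logSpace K)) (hF : FD K F)
    (ex' : InfinitePlace K → ℂ) (c δ : ℂ) (ρ : ℝ) (hρ : 0 < ρ) :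
    IntegrableOn (fun l => c * (δ * ∏ w : InfinitePlace K, ((Yl ρ l w : ℝ) : ℂ) ^ (ex' w))) F := by
  obtain ⟨-, -, -, -, -, hlc, hpos⟩ := hVLV K
  have hcont : Continuous (fun l : logSpace K => c * (δ * ∏ w : InfinitePlace K, ((Yl ρ l w : ℝ) : ℂ) ^ (ex' w))) := by
    refine continuous_const.mul (continuous_const.mul (continuous_finsetProd _ fun w _ => ?_))
    rw [continuous_iff_continuousAt]
    intro l
    have hY : Continuous (fun l : logSpace K => Yl ρ l w) := by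
      unfold Yl
      exact continuous_const.mul (Real.continuous_exp.comp (continuous_const.mul (hlc w)))
    refine ContinuousAt.cpow (Complex.continuous_ofReal.comp hY).continuousAt continuousAt_const ?_
    show ((Yl ρ l w : ℝ) : ℂ) ∈ slitPlane
    rw [Complex.ofReal_mem_slitPlane]
    exact (hpos ρ l hρ).1 w
  have hK : IsCompact (closure F) := hF.bdd.isCompact_closure
  exact (hcont.continuousOn.integrableOn_compact hK).mono_set subset_closure

theorem VHD (hVCT : VCT_stmt) (hVHC : VHC_stmt) (hVLV : VLV_stmt) (hHGC : HGC_stmt) : VHD_stmt := by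
  intro K _ _ f χ τ m e δ ε b σ β F hχ hNT hTF hF
  have hHM := (hHGC K f χ τ m hχ).1
  have hχ1 : ∀ I, ‖χ I‖ ≤ 1 := by
    intro I
    by_cases hI : I = ⊥
    · rw [hI, hHM.bot]; simp
    · by_cases hc : I ⊔ f = ⊤
      · exact (hHM.unit I hI hc).le
      · rw [hHM.zero I hc]; simp
  have hb : ∀ c, b c ≠ ⊥ := fun c => (hTF.rep c).choose
  have hN : ∀ c, 0 < Nm (b c) := by
    intro c
    unfold Nm
    have h1 : Ideal.absNorm (b c) ≠ 0 := fun h => hb c (Ideal.absNorm_eq_zero_iff.mp h)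
    exact_mod_cast Nat.pos_of_ne_zero h1
  have hr : ∀ c, 0 < Nm (b c) ^ (-(2 / (Module.finrank ℚ K : ℝ))) := fun c => Real.rpow_pos_of_pos (hN c) _
  have hEq : ∀ ρ : ℝ, 0 < ρ → Hh F δ b χ τ (aa m e) ρ = ∑ c, (starRingEnd ℂ) (χ (b c)) *
      ∫ l in F, Th0 (b c) χ τ (aa m e) (Yl (ρ * Nm (b c) ^ (-(2 / (Module.finrank ℚ K : ℝ)))) l) := by
    intro ρ hρ
    have h0 := hVCT K f χ τ m e δ ε b σ β F hχ hNT hTF hF ρ hρ
    unfold Hh
    have h1 : ∀ c, ∫ l in F, Th δ (b c) χ τ (aa m e) (Yl (ρ * Nm (b c) ^ (-(2 / (Module.finrank ℚ K : ℝ)))) l) =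
        (∫ l in F, (starRingEnd ℂ) (χ (b c)) * (δ * ∏ w : InfinitePlace K,
          ((Yl (ρ * Nm (b c) ^ (-(2 / (Module.finrank ℚ K : ℝ)))) l w : ℝ) : ℂ) ^ (ex τ (aa m e) w))) +
        (starRingEnd ℂ) (χ (b c)) *
          ∫ l in F, Th0 (b c) χ τ (aa m e) (Yl (ρ * Nm (b c) ^ (-(2 / (Module.finrank ℚ K : ℝ)))) l) := by
      intro c
      have hρc : 0 < ρ * Nm (b c) ^ (-(2 / (Module.finrank ℚ K : ℝ))) := mul_pos hρ (hr c)
      have hI1 := VHD_int hVLV K F hF (ex τ (aa m e)) ((starRingEnd ℂ) (χ (b c))) δ _ hρc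
      have hI2 := (hVHC K (b c) χ τ (aa m e) F (hb c) hχ1 hHM.bot hF).1 _ hρc
      have hI3 : IntegrableOn (fun l => (starRingEnd ℂ) (χ (b c)) *
          Th0 (b c) χ τ (aa m e) (Yl (ρ * Nm (b c) ^ (-(2 / (Module.finrank ℚ K : ℝ)))) l)) F := hI2.const_mul _
      rw [← integral_const_mul, ← integral_add hI1 hI3]
      refine integral_congr_ae (Filter.Eventually.of_forall fun l => ?_)
      simp only [Th]
      ring
    rw [Finset.sum_congr rfl fun c _ => h1 c, Finset.sum_add_distrib, h0, zero_add]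
  refine ⟨hEq, ?_, ?_⟩
  · have hc : ContinuousOn (fun ρ : ℝ => ∑ c, (starRingEnd ℂ) (χ (b c)) *
        ∫ l in F, Th0 (b c) χ τ (aa m e) (Yl (ρ * Nm (b c) ^ (-(2 / (Module.finrank ℚ K : ℝ)))) l)) (Set.Ioi 0) := by
      refine continuousOn_finsetSum _ fun c _ => continuousOn_const.mul ?_
      have h1 := (hVHC K (b c) χ τ (aa m e) F (hb c) hχ1 hHM.bot hF).2.1
      exact h1.comp (continuousOn_id.mul continuousOn_const) fun ρ hρ => mul_pos hρ (hr c)
    exact hc.congr fun ρ hρ => hEq ρ hρ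
  · intro r
    have hO : (fun ρ : ℝ => ∑ c, (starRingEnd ℂ) (χ (b c)) *
        ∫ l in F, Th0 (b c) χ τ (aa m e) (Yl (ρ * Nm (b c) ^ (-(2 / (Module.finrank ℚ K : ℝ)))) l))
        =O[Filter.atTop] (fun x : ℝ => x ^ r) := by
      suffices key : ∀ c ∈ (Finset.univ : Finset (ClassGroup (𝓞 K))), (fun ρ : ℝ => (starRingEnd ℂ) (χ (b c)) *
          ∫ l in F, Th0 (b c) χ τ (aa m e) (Yl (ρ * Nm (b c) ^ (-(2 / (Module.finrank ℚ K : ℝ)))) l))
          =O[Filter.atTop] (fun x : ℝ => x ^ r) from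
          (Asymptotics.IsBigO.sum key).congr_left (fun ρ => Finset.sum_apply ρ Finset.univ _)
      intro c _
      have h1 := (hVHC K (b c) χ τ (aa m e) F (hb c) hχ1 hHM.bot hF).2.2 r
      have ht : Filter.Tendsto (fun ρ : ℝ => ρ * Nm (b c) ^ (-(2 / (Module.finrank ℚ K : ℝ)))) Filter.atTop Filter.atTop :=
        Filter.Tendsto.atTop_mul_const (hr c) Filter.tendsto_id
      have h2 := (h1.comp_tendsto ht).const_mul_left ((starRingEnd ℂ) (χ (b c)))
      refine h2.trans ?_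
      refine Asymptotics.IsBigO.of_bound ((Nm (b c) ^ (-(2 / (Module.finrank ℚ K : ℝ)))) ^ r) ?_
      filter_upwards [Filter.eventually_gt_atTop 0] with ρ hρ
      simp only [Function.comp]
      rw [Real.mul_rpow hρ.le (hr c).le, norm_mul, mul_comm, Real.norm_of_nonneg (Real.rpow_nonneg (hr c).le _)]
    refine hO.congr' ?_ Filter.EventuallyEq.rfl
    filter_upwards [Filter.eventually_gt_atTop 0] with ρ hρ
    exact (hEq ρ hρ).symm

end Pool.Agent.UN
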