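import Pool.Agent.helper1.UN.SpecU
import Pool.Agent.helper1.UN.Spec3

/-! Row VFE of project UN, block H (MP_cf4097_nt). -/

set_option autoImplicit false

open NumberField Complex MeasureTheory NumberField.Units NumberField.Units.dirichletUnitTheorem

open scoped Classical

namespace Pool.Agent.UN

theorem VFE_inv (hVHI : VHI_stmt) (K : Type) [Field K] [NumberField K] (f : Ideal (𝓞 K)) (χ : Ideal (𝓞 K) → ℂ)
    (τ : InfinitePlace K → ℝ) (m : InfinitePlace K → ℤ) (e : InfinitePlace K → ℕ) (δ ε : ℂ)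
    (b : ClassGroup (𝓞 K) → Ideal (𝓞 K)) (σ : ClassGroup (𝓞 K) ≃ ClassGroup (𝓞 K)) (β : ClassGroup (𝓞 K) → 𝓞 K)
    (hχ : HCharG f χ τ m) (hTF : TF f χ τ m e δ ε b σ β) (J : Ideal (𝓞 K)) (ρ : ℝ) (hρ : 0 < ρ)
    (v : logSpace K) (hv : v ∈ unitLattice K) (l : logSpace K) :
    Th δ J χ τ (aa m e) (Yl ρ (l + v)) = Th δ J χ τ (aa m e) (Yl ρ l) := by
  obtain ⟨h1, h2⟩ := hVHI K τ ρ l v hv
  unfold Th
  rw [h1 J χ (aa m e)]
  rcases hTF.del with hδ | ⟨hδ, hf, hem, hAr⟩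
  · subst hδ
    simp
  · have ha : aa m e = fun _ => 0 := by
      funext w
      simp [aa, (hem w).1, (hem w).2]
    have hu : ∀ u : (𝓞 K)ˣ, Ar τ m (u : 𝓞 K) = 1 := by
      intro u
      rw [← hAr (u : 𝓞 K) u.ne_zero, Ideal.span_singleton_eq_top.2 u.isUnit, hχ.one]
    rw [ha, h2 m hρ (fun w => (hem w).2) hu]

theorem VFE_scal (n A N N' ρ : ℝ) (hn : 0 < n) (hA : 0 < A) (hN : 0 < N) (hN' : 0 < N') (hρ : 0 < ρ) :
    1 / (ρ * A ^ (2 / n)) * N' ^ (-(2 / n)) * (N * N' * A) ^ (2 / n) = 1 / (ρ * N ^ (-(2 / n))) := by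
  rw [Real.mul_rpow (mul_pos hN hN').le hA.le, Real.mul_rpow hN.le hN'.le, Real.rpow_neg hN'.le, Real.rpow_neg hN.le]
  have h1 : 0 < N ^ (2 / n) := Real.rpow_pos_of_pos hN _
  have h2 : 0 < N' ^ (2 / n) := Real.rpow_pos_of_pos hN' _
  have h3 : 0 < A ^ (2 / n) := Real.rpow_pos_of_pos hA _
  field_simp

theorem VFE_fac (n A N ρ : ℝ) (hn : 0 < n) (hA : 0 < A) (hN : 0 < N) (hρ : 0 < ρ) :
    (ρ * N ^ (-(2 / n))) ^ (-(n / 2)) / (N * A ^ (1 / 2 : ℝ)) = A ^ (-(1 / 2 : ℝ)) * ρ ^ (-(n / 2)) := by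
  rw [Real.mul_rpow hρ.le (Real.rpow_nonneg hN.le _), ← Real.rpow_mul hN.le]
  have h1 : -(2 / n) * -(n / 2) = 1 := by field_simp
  rw [h1, Real.rpow_one, Real.rpow_neg hA.le]
  have h3 : 0 < A ^ (1 / 2 : ℝ) := Real.rpow_pos_of_pos hA _
  field_simp

theorem VFE_class (hVLV : VLV_stmt) (hVHI : VHI_stmt) (hVFN : VFN_stmt) (hPRO : PRO_stmt) (K : Type) [Field K]
    [NumberField K] (f : Ideal (𝓞 K)) (χ : Ideal (𝓞 K) → ℂ)
    (τ : InfinitePlace K → ℝ) (m : InfinitePlace K → ℤ) (e : InfinitePlace K → ℕ) (δ ε : ℂ)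
    (b : ClassGroup (𝓞 K) → Ideal (𝓞 K)) (σ : ClassGroup (𝓞 K) ≃ ClassGroup (𝓞 K)) (β : ClassGroup (𝓞 K) → 𝓞 K)
    (F : Set (logSpace K)) (hχ : HCharG f χ τ m) (hTF : TF f χ τ m e δ ε b σ β) (hF : FD K F) (ρ : ℝ) (hρ : 0 < ρ)
    (c : ClassGroup (𝓞 K)) :
    ∫ l in F, Th δ (b c) χ τ (aa m e) (Yl (ρ * Nm (b c) ^ (-(2 / (Module.finrank ℚ K : ℝ)))) l) =
      ε * (((Dc K * Nm f) ^ (-(1 / 2 : ℝ)) * ρ ^ (-((Module.finrank ℚ K : ℝ) / 2)) : ℝ) : ℂ) *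
        (starRingEnd ℂ) (∫ l in F, Th δ (b (σ c)) χ τ (aa m e)
          (Yl (1 / (ρ * (Dc K * Nm f) ^ (2 / (Module.finrank ℚ K : ℝ))) *
            Nm (b (σ c)) ^ (-(2 / (Module.finrank ℚ K : ℝ)))) l)) := by
  obtain ⟨hn1, hmult, hD, hpx, -, hNb, -⟩ := hPRO K
  obtain ⟨-, hadd, hneg, -, hsurj, -, hpos⟩ := hVLV K
  have hn : (0 : ℝ) < (Module.finrank ℚ K : ℝ) := by exact_mod_cast hn1
  have hA : 0 < Dc K * Nm f := mul_pos (lt_of_lt_of_le one_pos hD) (lt_of_lt_of_le one_pos (hNb f hχ.f0))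
  have hNc : ∀ c, 0 < Nm (b c) := fun c => lt_of_lt_of_le one_pos (hNb (b c) (hTF.rep c).choose)
  obtain ⟨hβ0, hβN⟩ := hTF.bet c
  obtain ⟨hβ1, hβw, hβlog⟩ := hpx (β c) hβ0
  have hNβ : 0 < Nm (Ideal.span {β c}) := lt_of_lt_of_le one_pos hβ1
  set n : ℝ := (Module.finrank ℚ K : ℝ) with hndef
  -- the vector s
  have hs0 : ∑ w : InfinitePlace K, (w.mult : ℝ) *
      (Real.log (w ((β c : 𝓞 K) : K)) - Real.log (Nm (Ideal.span {β c})) / n) = 0 := by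
    have h1 : ∑ w : InfinitePlace K, (w.mult : ℝ) = n := by
      rw [hndef, ← hmult]; push_cast; rfl
    simp only [mul_sub]
    rw [Finset.sum_sub_distrib, hβlog, ← Finset.sum_mul, h1]
    field_simp
    ring
  obtain ⟨s, hs⟩ := hsurj _ hs0
  have hρ1 : 0 < ρ * Nm (b c) ^ (-(2 / n)) := mul_pos hρ (Real.rpow_pos_of_pos (hNc c) _)
  have hρ2 : 0 < 1 / (ρ * (Dc K * Nm f) ^ (2 / n)) * Nm (b (σ c)) ^ (-(2 / n)) :=
    mul_pos (one_div_pos.2 (mul_pos hρ (Real.rpow_pos_of_pos hA _))) (Real.rpow_pos_of_pos (hNc _) _)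
  set ρ2 : ℝ := 1 / (ρ * (Dc K * Nm f) ^ (2 / n)) * Nm (b (σ c)) ^ (-(2 / n)) with hρ2def
  have hY : ∀ l : logSpace K, (fun w : InfinitePlace K => 1 / ((w ((β c : 𝓞 K) : K)) ^ 2 *
      Yl (ρ * Nm (b c) ^ (-(2 / n))) l w)) = Yl ρ2 (-(l + s)) := by
    intro l
    funext w
    have hw : 0 < w ((β c : 𝓞 K) : K) := hβw w
    have e1 : ρ2 * Nm (Ideal.span {β c}) ^ (2 / n) = 1 / (ρ * Nm (b c) ^ (-(2 / n))) := by
      rw [hβN, hρ2def]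
      exact VFE_scal n _ _ _ ρ hn hA (hNc c) (hNc (σ c)) hρ
    have e2 : Real.exp (2 * lv (-(l + s)) w) = Real.exp (-(2 * lv l w)) * (((w ((β c : 𝓞 K) : K)) ^ 2)⁻¹ *
        Nm (Ideal.span {β c}) ^ (2 / n)) := by
      rw [hneg, hadd, hs w]
      have e3 : 2 * -(lv l w + (Real.log (w ((β c : 𝓞 K) : K)) - Real.log (Nm (Ideal.span {β c})) / n)) =
          -(2 * lv l w) + (-(2 * Real.log (w ((β c : 𝓞 K) : K))) + Real.log (Nm (Ideal.span {β c})) * (2 / n)) := by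
        ring
      rw [e3, Real.exp_add, Real.exp_add, ← Real.rpow_def_of_pos hNβ, Real.exp_neg (2 * Real.log _)]
      congr 3
      rw [mul_comm, Real.exp_mul, Real.exp_log hw]
      norm_cast
    unfold Yl
    rw [e2]
    have e4 : ρ2 * (Real.exp (-(2 * lv l w)) * (((w ((β c : 𝓞 K) : K)) ^ 2)⁻¹ * Nm (Ideal.span {β c}) ^ (2 / n))) =
        (ρ2 * Nm (Ideal.span {β c}) ^ (2 / n)) * (((w ((β c : 𝓞 K) : K)) ^ 2)⁻¹ * Real.exp (-(2 * lv l w))) := by ring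
    rw [e4, e1, Real.exp_neg]
    have hE : 0 < Real.exp (2 * lv l w) := Real.exp_pos _
    have hw2 : 0 < (w ((β c : 𝓞 K) : K)) ^ 2 := by positivity
    have hR := hρ1
    field_simp
  have hpt : ∀ l : logSpace K, Th δ (b c) χ τ (aa m e) (Yl (ρ * Nm (b c) ^ (-(2 / n))) l) =
      ε * (((Dc K * Nm f) ^ (-(1 / 2 : ℝ)) * ρ ^ (-(n / 2)) : ℝ) : ℂ) *
        (starRingEnd ℂ) (Th δ (b (σ c)) χ τ (aa m e) (Yl ρ2 (-(l + s)))) := by
    intro l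
    have h1 := hTF.fe c (Yl (ρ * Nm (b c) ^ (-(2 / n))) l) (hpos _ l hρ1).1
    rw [hY l, (hpos _ l hρ1).2, VFE_fac n _ _ ρ hn hA (hNc c) hρ] at h1
    exact h1
  have hint : ∫ l in F, Th δ (b (σ c)) χ τ (aa m e) (Yl ρ2 (-(l + s))) =
      ∫ l in F, Th δ (b (σ c)) χ τ (aa m e) (Yl ρ2 l) := by
    refine (hVFN K F (fun l => Th δ (b (σ c)) χ τ (aa m e) (Yl ρ2 l)) s hF ?_).1
    intro v hv l
    exact VFE_inv hVHI K f χ τ m e δ ε b σ β hχ hTF (b (σ c)) ρ2 hρ2 v hv l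
  rw [integral_congr_ae (Filter.Eventually.of_forall hpt), integral_const_mul, integral_conj, hint]

theorem VFE (hVLV : VLV_stmt) (hVHI : VHI_stmt) (hVFN : VFN_stmt) (hPRO : PRO_stmt) (_hHGC : HGC_stmt) :
    VFE_stmt := by
  intro K _ _ f χ τ m e δ ε b σ β F hχ hTF hF ρ hρ
  unfold Hh
  rw [Finset.sum_congr rfl fun c _ => VFE_class hVLV hVHI hVFN hPRO K f χ τ m e δ ε b σ β F hχ hTF hF ρ hρ c,
    ← Finset.mul_sum, ← map_sum]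
  congr 2
  exact Equiv.sum_comp σ (fun c => ∫ l in F, Th δ (b c) χ τ (aa m e)
          (Yl (1 / (ρ * (Dc K * Nm f) ^ (2 / (Module.finrank ℚ K : ℝ))) *
            Nm (b c) ^ (-(2 / (Module.finrank ℚ K : ℝ)))) l))

end Pool.Agent.UN
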