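import Pool.Agent.helper1.UN.SpecU

/-! Row VMX of project UN, block H (MP_cf4097_nt). -/

set_option autoImplicit false

open Complex MeasureTheory

open scoped Classical

namespace Pool.Agent.UN

theorem VMX_pt (f : ℝ → ℂ) (z : ℂ) (t : ℝ) :
    |Real.exp t| • (((Real.exp t : ℝ) : ℂ) ^ (z - 1) • f (Real.exp t)) = cexp (z * t) * f (Real.exp t) := by
  rw [abs_of_pos (Real.exp_pos t), smul_eq_mul, Complex.real_smul, ← mul_assoc]
  congr 1
  have h0 : ((Real.exp t : ℝ) : ℂ) ≠ 0 := by
    exact_mod_cast (Real.exp_pos t).ne'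
  rw [Complex.cpow_sub _ _ h0, Complex.cpow_one, mul_div_cancel₀ _ h0, Complex.cpow_def_of_ne_zero h0,
    ← Complex.ofReal_log (Real.exp_pos t).le, Real.log_exp, mul_comm]

theorem VMX : VMX_stmt := by
  intro f z
  have himg : Real.exp '' Set.univ = Set.Ioi (0 : ℝ) := by rw [Set.image_univ, Real.range_exp]
  have hder : ∀ x ∈ (Set.univ : Set ℝ), HasDerivWithinAt Real.exp (Real.exp x) Set.univ x :=
    fun x _ => (Real.hasDerivAt_exp x).hasDerivWithinAt
  have hinj : Set.InjOn Real.exp Set.univ := Real.exp_injective.injOn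
  constructor
  · have h1 := integral_image_eq_integral_abs_deriv_smul MeasurableSet.univ hder hinj
      (fun t : ℝ => (t : ℂ) ^ (z - 1) • f t)
    rw [himg, setIntegral_univ] at h1
    unfold mellin
    rw [h1]
    exact integral_congr_ae (Filter.Eventually.of_forall fun t => VMX_pt f z t)
  · have h2 := integrableOn_image_iff_integrableOn_abs_deriv_smul MeasurableSet.univ hder hinj
      (fun t : ℝ => (t : ℂ) ^ (z - 1) • f t)
    rw [himg, integrableOn_univ] at h2
    unfold MellinConvergent
    rw [h2]
    exact integrable_congr (Filter.Eventually.of_forall fun t => VMX_pt f z t)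

end Pool.Agent.UN
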