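import Pool.Agent.helper1.UN.SpecU

/-! Row VPR of project UN, block H (MP_cf4097_nt). -/

set_option autoImplicit false

open NumberField Complex MeasureTheory NumberField.Units NumberField.Units.dirichletUnitTheorem

open scoped Classical

namespace Pool.Agent.UN

theorem VPR : VPR_stmt := by
  intro K _ _ b
  have hgen : ∀ I : Ideal (𝓞 K), ∃ x : 𝓞 K, I ∈ Pr b → x ≠ 0 ∧ Ideal.span {x} = I := by
    intro I
    by_cases hI : I ∈ Pr b
    · obtain ⟨h0, -, x, hx⟩ := hI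
      refine ⟨x, fun _ => ⟨?_, hx.symm⟩⟩
      intro hx0
      exact h0 (by rw [hx, hx0, Ideal.span_singleton_eq_bot.2 rfl])
    · exact ⟨0, fun h => absurd h hI⟩
  choose γ hγ using hgen
  have hmem : ∀ p : (Pr b) × (𝓞 K)ˣ, (p.2 : 𝓞 K) * γ (p.1 : Ideal (𝓞 K)) ∈ b ∧
      (p.2 : 𝓞 K) * γ (p.1 : Ideal (𝓞 K)) ≠ 0 := by
    intro p
    obtain ⟨h1, h2⟩ := hγ p.1 p.1.2
    refine ⟨b.mul_mem_left _ ?_, mul_ne_zero p.2.ne_zero h1⟩
    exact p.1.2.2.1 (h2.le (Ideal.mem_span_singleton_self _))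
  have hspan : ∀ p : (Pr b) × (𝓞 K)ˣ, Ideal.span {(p.2 : 𝓞 K) * γ (p.1 : Ideal (𝓞 K))} = (p.1 : Ideal (𝓞 K)) := by
    intro p
    rw [Ideal.span_singleton_mul_left_unit p.2.isUnit]
    exact (hγ p.1 p.1.2).2
  let E : (Pr b) × (𝓞 K)ˣ → {x : 𝓞 K // x ∈ b ∧ x ≠ 0} := fun p => ⟨_, hmem p⟩
  have hE : Function.Bijective E := by
    constructor
    · intro p q hpq
      have h1 : (p.2 : 𝓞 K) * γ (p.1 : Ideal (𝓞 K)) = (q.2 : 𝓞 K) * γ (q.1 : Ideal (𝓞 K)) := congrArg Subtype.val hpq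
      have h2 : (p.1 : Ideal (𝓞 K)) = (q.1 : Ideal (𝓞 K)) := by
        rw [← hspan p, h1, hspan q]
      have h3 : p.1 = q.1 := Subtype.ext h2
      rw [h3] at h1
      have h4 : (p.2 : 𝓞 K) = (q.2 : 𝓞 K) := mul_right_cancel₀ (hγ q.1 q.1.2).1 h1
      exact Prod.ext h3 (Units.ext h4)
    · rintro ⟨x, hxb, hx0⟩
      have hI : Ideal.span {x} ∈ Pr b := by
        refine ⟨?_, ?_, x, rfl⟩
        · intro h
          exact hx0 (Ideal.span_singleton_eq_bot.1 h)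
        · rw [Ideal.span_singleton_le_iff_mem]
          exact hxb
      obtain ⟨h1, h2⟩ := hγ _ hI
      obtain ⟨u, hu⟩ := Ideal.span_singleton_eq_span_singleton.1 h2
      refine ⟨(⟨Ideal.span {x}, hI⟩, u), ?_⟩
      apply Subtype.ext
      show (u : 𝓞 K) * γ (Ideal.span {x}) = x
      rw [mul_comm]
      exact hu
  exact ⟨Equiv.ofBijective E hE, γ, fun J hJ => hγ J hJ, fun p => rfl⟩

end Pool.Agent.UN
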